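import Pool.Agent.Q277.EB.Ind

/-!
# From the corner sets to all products of intervals
-/

set_option autoImplicit false

namespace Pool.Agent.Q277.EB

open Finset Pool.Agent.Q255.EB

/-- a lower set of real numbers has, at the values, a quantile weight as indicator function -/
theorem lower_psi {d n : ℕ} {q : ℕ → ℕ} {x : ℕ → (Fin d → ℤ) → ℝ}
    (h01 : ∀ k < n, ∀ ν, Psi d n q x 0 (x k ν) = 0 ∧ Psi d n q x 1 (x k ν) = 1)
    (hlt : ∀ b : ℝ, ∃ t, 0 ≤ t ∧ t ≤ 1 ∧ ∀ k < n, ∀ ν,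
      Psi d n q x t (x k ν) = if x k ν < b then 1 else 0)
    (hle : ∀ b : ℝ, ∃ t, 0 ≤ t ∧ t ≤ 1 ∧ ∀ k < n, ∀ ν,
      Psi d n q x t (x k ν) = if x k ν ≤ b then 1 else 0)
    (D : Set ℝ) (hD : IsLowerSet D) :
    ∃ t, 0 ≤ t ∧ t ≤ 1 ∧ ∀ k < n, ∀ ν,
      (x k ν ∈ D → Psi d n q x t (x k ν) = 1) ∧ (x k ν ∉ D → Psi d n q x t (x k ν) = 0) := by
  rcases D.eq_empty_or_nonempty with he | hne
  · refine ⟨0, le_rfl, zero_le_one, fun k hk ν => ⟨fun h => ?_, fun _ => (h01 k hk ν).1⟩⟩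
    rw [he] at h
    exact absurd h (Set.notMem_empty _)
  by_cases hb : BddAbove D
  · by_cases hm : sSup D ∈ D
    · obtain ⟨t, h0, h1, h2⟩ := hle (sSup D)
      refine ⟨t, h0, h1, fun k hk ν => ⟨fun h => ?_, fun h => ?_⟩⟩
      · rw [h2 k hk ν, if_pos (le_csSup hb h)]
      · rw [h2 k hk ν, if_neg]
        intro h3
        exact h (hD h3 hm)
    · obtain ⟨t, h0, h1, h2⟩ := hlt (sSup D)
      refine ⟨t, h0, h1, fun k hk ν => ⟨fun h => ?_, fun h => ?_⟩⟩
      · rw [h2 k hk ν, if_pos]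
        rcases lt_or_eq_of_le (le_csSup hb h) with h3 | h3
        · exact h3
        · rw [h3] at h
          exact absurd h hm
      · rw [h2 k hk ν, if_neg]
        intro h3
        obtain ⟨z, hz, hxz⟩ := exists_lt_of_lt_csSup hne h3
        exact h (hD hxz.le hz)
  · refine ⟨1, zero_le_one, le_rfl, fun k hk ν => ⟨fun _ => (h01 k hk ν).2, fun h => ?_⟩⟩
    exfalso
    apply hb
    refine ⟨x k ν, fun z hz => ?_⟩
    by_contra h3
    push Not at h3
    exact h (hD h3.le hz)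

/-- the same for an order connected set, as a difference -/
theorem conn_psi {d n : ℕ} {q : ℕ → ℕ} {x : ℕ → (Fin d → ℤ) → ℝ}
    (h01 : ∀ k < n, ∀ ν, Psi d n q x 0 (x k ν) = 0 ∧ Psi d n q x 1 (x k ν) = 1)
    (hlt : ∀ b : ℝ, ∃ t, 0 ≤ t ∧ t ≤ 1 ∧ ∀ k < n, ∀ ν,
      Psi d n q x t (x k ν) = if x k ν < b then 1 else 0)
    (hle : ∀ b : ℝ, ∃ t, 0 ≤ t ∧ t ≤ 1 ∧ ∀ k < n, ∀ ν,
      Psi d n q x t (x k ν) = if x k ν ≤ b then 1 else 0)
    (I : Set ℝ) (hI : I.OrdConnected) :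
    ∃ t t' : ℝ, (0 ≤ t ∧ t ≤ 1) ∧ (0 ≤ t' ∧ t' ≤ 1) ∧ ∀ k < n, ∀ ν,
      (x k ν ∈ I → Psi d n q x t' (x k ν) + -Psi d n q x t (x k ν) = 1) ∧
      (x k ν ∉ I → Psi d n q x t' (x k ν) + -Psi d n q x t (x k ν) = 0) := by
  rcases I.eq_empty_or_nonempty with he | hne
  · refine ⟨0, 0, ⟨le_rfl, zero_le_one⟩, ⟨le_rfl, zero_le_one⟩, fun k hk ν => ⟨fun h => ?_, fun _ => ?_⟩⟩
    · rw [he] at h
      exact absurd h (Set.notMem_empty _)
    · exact add_neg_cancel _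
  obtain ⟨t', h0', h1', h2'⟩ := lower_psi h01 hlt hle {y | ∃ z ∈ I, y ≤ z}
    (fun a b hab ha => by
      obtain ⟨z, hz, h3⟩ := ha
      exact ⟨z, hz, hab.trans h3⟩)
  obtain ⟨t, h0, h1, h2⟩ := lower_psi h01 hlt hle {y | ∀ z ∈ I, y < z}
    (fun a b hab ha z hz => lt_of_le_of_lt hab (ha z hz))
  refine ⟨t, t', ⟨h0, h1⟩, ⟨h0', h1'⟩, fun k hk ν => ⟨fun h => ?_, fun h => ?_⟩⟩
  · rw [(h2' k hk ν).1 ⟨_, h, le_rfl⟩, (h2 k hk ν).2 (fun h3 => lt_irrefl _ (h3 _ h))]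
    norm_num
  · by_cases h3 : ∃ z ∈ I, x k ν ≤ z
    · have h4 : ∀ z ∈ I, x k ν < z := by
        intro z hz
        by_contra h5
        push Not at h5
        obtain ⟨z', hz', h6⟩ := h3
        exact h (hI.out hz hz' ⟨h5, h6⟩)
      rw [(h2' k hk ν).1 h3, (h2 k hk ν).1 h4]
      norm_num
    · have h4 : ¬ ∀ z ∈ I, x k ν < z := by
        intro h5
        obtain ⟨z, hz⟩ := hne
        exact h3 ⟨z, hz, (h5 z hz).le⟩
      rw [(h2' k hk ν).2 h3, (h2 k hk ν).2 h4]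
      norm_num

/-- the choice of the parameters of a vertex -/
noncomputable def vert {s : ℕ} (t t' : Fin s → ℝ) (S : Finset (Fin s)) (i : Fin s) : ℝ :=
  if i ∈ S then t' i else t i

theorem expand {s : ℕ} (P : ℝ → Fin s → ℝ) (t t' : Fin s → ℝ) :
    ∏ i, (P (t' i) i + -P (t i) i) =
      ∑ S ∈ (univ : Finset (Fin s)).powerset, (-1) ^ (univ \ S).card * ∏ i, P (vert t t' S i) i := by
  rw [prod_add]
  refine sum_congr rfl fun S hS => ?_
  rw [prod_neg]
  have h1 : ∏ i, P (vert t t' S i) i =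
      (∏ i ∈ univ \ S, P (vert t t' S i) i) * ∏ i ∈ S, P (vert t t' S i) i :=
    (prod_sdiff (subset_univ S)).symm
  rw [h1]
  have h2 : ∏ i ∈ S, P (vert t t' S i) i = ∏ i ∈ S, P (t' i) i := by
    refine prod_congr rfl fun i hi => ?_
    rw [vert, if_pos hi]
  have h3 : ∏ i ∈ univ \ S, P (vert t t' S i) i = ∏ i ∈ univ \ S, P (t i) i := by
    refine prod_congr rfl fun i hi => ?_
    rw [vert, if_neg (mem_sdiff.1 hi).2]
  rw [h2, h3]
  ring

/-- The deviation for a product of intervals is an alternating sum of the deviations on the corner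
sets. -/
theorem dev_le {d s K : ℕ} {q : ℕ → ℕ} {x : ℕ → (Fin d → ℤ) → ℝ} {K' : ℕ} (hK' : K' ≤ K)
    (I : Fin s → Set ℝ) (t t' : Fin s → ℝ)
    (ht : ∀ i, 0 ≤ t i ∧ t i ≤ 1) (ht' : ∀ i, 0 ≤ t' i ∧ t' i ≤ 1)
    (hI : ∀ i : Fin s, ∀ k < K + s, ∀ ν,
      (x k ν ∈ I i → Psi d (K + s) q x (t' i) (x k ν) + -Psi d (K + s) q x (t i) (x k ν) = 1) ∧
      (x k ν ∉ I i → Psi d (K + s) q x (t' i) (x k ν) + -Psi d (K + s) q x (t i) (x k ν) = 0))
    (ν : Fin d → ℤ) (B : ℝ)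
    (hB : ∀ τ : Fin s → ℝ, (∀ i, 0 ≤ τ i ∧ τ i ≤ 1) → |Zt (K + s) q x K' τ ν| ≤ B) :
    |count x I K' ν - cmean q x I K'| ≤ 2 ^ s * B := by
  have hgi : ∀ k < K', ∀ ν, gi x I k ν =
      ∏ i : Fin s, (Psi d (K + s) q x (t' i) (x (k + i) ν) + -Psi d (K + s) q x (t i) (x (k + i) ν)) := by
    intro k hk ν
    unfold gi
    by_cases h1 : ∀ i : Fin s, x (k + i) ν ∈ I i
    · rw [if_pos h1]
      symm
      refine prod_eq_one fun i _ => ?_
      exact (hI i (k + i) (by omega) ν).1 (h1 i)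
    · rw [if_neg h1]
      push Not at h1
      obtain ⟨i, hi⟩ := h1
      symm
      exact prod_eq_zero (mem_univ i) ((hI i (k + i) (by omega) ν).2 hi)
  set F : Finset (Fin s) → ℕ → (Fin d → ℤ) → ℝ := fun S k ν =>
    ∏ i : Fin s, Psi d (K + s) q x (vert t t' S i) (x (k + i) ν) with hF
  have hgi2 : ∀ k < K', gi x I k = fun ν => ∑ S ∈ (univ : Finset (Fin s)).powerset,
      (-1) ^ (univ \ S).card * F S k ν := by
    intro k hk
    funext ν
    rw [hgi k hk ν]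
    exact expand (fun u i => Psi d (K + s) q x u (x (k + i) ν)) t t'
  have hdev : count x I K' ν - cmean q x I K' = ∑ S ∈ (univ : Finset (Fin s)).powerset,
      (-1) ^ (univ \ S).card * Zt (K + s) q x K' (vert t t' S) ν := by
    rw [dev_eq]
    have h1 : ∀ k ∈ range K', Q285MD.G s q (gi x I) k ν =
        ∑ S ∈ (univ : Finset (Fin s)).powerset, (-1) ^ (univ \ S).card *
          (F S k ν - Q282LT.avg d (Q285MD.wm q s k) (F S k)) := by
      intro k hk
      unfold Q285MD.G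
      rw [hgi2 k (mem_range.1 hk), Q285MD.avg_sum, ← sum_sub_distrib]
      refine sum_congr rfl fun S _ => ?_
      rw [Q285MD.avg_smul]
      ring
    rw [sum_congr rfl h1, sum_comm]
    refine sum_congr rfl fun S _ => ?_
    rw [← mul_sum]
    rfl
  rw [hdev]
  refine (abs_sum_le_sum_abs _ _).trans ?_
  have h2 : ∀ S ∈ (univ : Finset (Fin s)).powerset,
      |(-1) ^ (univ \ S).card * Zt (K + s) q x K' (vert t t' S) ν| ≤ B := by
    intro S _
    rw [abs_mul, abs_pow, abs_neg, abs_one, one_pow, one_mul]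
    refine hB _ fun i => ?_
    unfold vert
    split_ifs
    · exact ht' i
    · exact ht i
  refine (sum_le_sum h2).trans ?_
  rw [sum_const, card_powerset, card_univ, Fintype.card_fin, nsmul_eq_mul]
  push_cast
  exact le_rfl

theorem s_boxes (hC : S_CORNER) (hP : S_PSI) : S_BOXES := by
  classical
  intro s r hr
  obtain ⟨C, C₀, A, hCpos, hC₀, h⟩ := hC s r hr
  set B : ℝ := 2 ^ s * √(s + 1) with hB
  have hs1 : (1 : ℝ) ≤ √(s + 1) := by
    rw [Real.one_le_sqrt]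
    have : (0 : ℝ) ≤ s := Nat.cast_nonneg s
    linarith
  have h2s : (1 : ℝ) ≤ 2 ^ s := one_le_pow₀ (by norm_num)
  have hB1 : 1 ≤ B := by
    rw [hB]
    nlinarith
  have hB0 : 0 < B := by linarith
  refine ⟨(C + 1) * B ^ (2 * r), C₀, A, by positivity, hC₀, ?_⟩
  intro d K q x hK hF Y hq hKY m L hL lam hlam
  have hlam0 : 0 < lam := by linarith
  have hP0 : 0 ≤ ∏ i, (L i : ℝ) := prod_nonneg fun i _ => Nat.cast_nonneg _
  by_cases hl : lam < B
  · refine ⟨Q282LT.zbox m L, Subset.refl _, ?_, fun ν h1 h2 => absurd h1 h2⟩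
    rw [Q282LT.card_zbox]
    push_cast
    have h1 : 1 ≤ (C + 1) * B ^ (2 * r) / lam ^ (2 * r) := by
      rw [one_le_div (by positivity)]
      have h2 : lam ^ (2 * r) ≤ B ^ (2 * r) := pow_le_pow_left₀ hlam0.le hl.le _
      have h3 : 0 ≤ B ^ (2 * r) := by positivity
      nlinarith
    calc (∏ i, (L i : ℝ)) = 1 * ∏ i, (L i : ℝ) := (one_mul _).symm
      _ ≤ _ := mul_le_mul_of_nonneg_right h1 hP0
  · push Not at hl
    obtain ⟨T, hT, hTc, hTν⟩ := h d K q x hK hF Y hq hKY m L hL (lam / B)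
      ((one_le_div hB0).2 hl)
    refine ⟨T, hT, hTc.trans ?_, ?_⟩
    · refine mul_le_mul_of_nonneg_right ?_ hP0
      have h4 : 0 < B ^ (2 * r) := by positivity
      have h5 : 0 < lam ^ (2 * r) := by positivity
      rw [div_pow, div_div_eq_mul_div]
      refine div_le_div_of_nonneg_right ?_ h5.le
      nlinarith
    · intro ν hν hνT K' hK' I hI
      obtain ⟨hp1, hp2, hp3, hp4, hp5, hp6⟩ := hP d (K + s) q x (by omega) hF.q1 hF.per
      choose t t' ht ht' hpsi using fun i : Fin s => conn_psi hp3 hp5 hp6 (I i) (hI i)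
      have h6 := dev_le hK' I t t' ht ht' hpsi ν (lam / B * √(K + s))
        (fun τ hτ => hTν ν hν hνT K' hK' τ hτ)
      refine h6.trans ?_
      have hK1 : (1 : ℝ) ≤ K := by exact_mod_cast hK
      have h7 : √((K : ℝ) + s) ≤ √(s + 1) * √K := by
        rw [← Real.sqrt_mul (by positivity)]
        refine Real.sqrt_le_sqrt ?_
        have : (0 : ℝ) ≤ s := Nat.cast_nonneg s
        nlinarith
      calc (2 : ℝ) ^ s * (lam / B * √(K + s)) ≤ 2 ^ s * (lam / B * (√(s + 1) * √K)) := by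
            refine mul_le_mul_of_nonneg_left ?_ (by positivity)
            exact mul_le_mul_of_nonneg_left h7 (by positivity)
        _ = lam / B * B * √K := by rw [hB]; ring
        _ = lam * √K := by rw [div_mul_cancel₀ _ hB0.ne']

end Pool.Agent.Q277.EB
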