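import Pool.Agent.Q255.EB.Stm

/-!
# Counts of windows as sums of indicator functions
-/

set_option autoImplicit false

namespace Pool.Agent.Q277.EB

open Finset Pool.Agent.Q255.EB

/-- the indicator function of the window number `k` lying in the box -/
noncomputable def gi {d s : ℕ} (x : ℕ → (Fin d → ℤ) → ℝ) (I : Fin s → Set ℝ) (k : ℕ)
    (ν : Fin d → ℤ) : ℝ :=
  open Classical in if ∀ i : Fin s, x (k + i) ν ∈ I i then 1 else 0

theorem count_eq {d s : ℕ} (x : ℕ → (Fin d → ℤ) → ℝ) (I : Fin s → Set ℝ) (K : ℕ)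
    (ν : Fin d → ℤ) : count x I K ν = ∑ k ∈ range K, gi x I k ν := by
  classical
  unfold count gi
  rw [card_filter]
  push_cast
  refine sum_congr rfl fun k _ => ?_
  split_ifs <;> rfl

theorem cmean_eq {d s : ℕ} (q : ℕ → ℕ) (x : ℕ → (Fin d → ℤ) → ℝ) (I : Fin s → Set ℝ) (K : ℕ) :
    cmean q x I K = ∑ k ∈ range K, Q282LT.avg d (Q285MD.wm q s k) (gi x I k) := rfl

theorem dev_eq {d s : ℕ} (q : ℕ → ℕ) (x : ℕ → (Fin d → ℤ) → ℝ) (I : Fin s → Set ℝ) (K : ℕ)
    (ν : Fin d → ℤ) : count x I K ν - cmean q x I K = ∑ k ∈ range K, Q285MD.G s q (gi x I) k ν := by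
  rw [count_eq, cmean_eq, ← sum_sub_distrib]
  rfl

theorem gi_nonneg {d s : ℕ} (x : ℕ → (Fin d → ℤ) → ℝ) (I : Fin s → Set ℝ) (k : ℕ)
    (ν : Fin d → ℤ) : 0 ≤ gi x I k ν := by
  unfold gi
  split_ifs <;> norm_num

theorem gi_le {d s : ℕ} (x : ℕ → (Fin d → ℤ) → ℝ) (I : Fin s → Set ℝ) (k : ℕ)
    (ν : Fin d → ℤ) : gi x I k ν ≤ 1 := by
  unfold gi
  split_ifs <;> norm_num

theorem per_window {d s K : ℕ} {q : ℕ → ℕ} {x : ℕ → (Fin d → ℤ) → ℝ} (h : Fam d (K + s) q x)
    {k : ℕ} (hk : k < K) {ν ν' : Fin d → ℤ} (hν : ∀ i, ((Q285MD.wm q s k : ℕ) : ℤ) ∣ ν i - ν' i)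
    (i : Fin s) : x (k + i) ν = x (k + i) ν' := by
  refine h.per (k + i) (by omega) ν ν' fun j => ?_
  refine dvd_trans ?_ (hν j)
  have : q (k + i) ∣ Q285MD.wm q s k := by
    unfold Q285MD.wm
    exact dvd_prod_of_mem _ (mem_Ico.2 ⟨by omega, by omega⟩)
  exact_mod_cast this

theorem dat {d s K : ℕ} {q : ℕ → ℕ} {x : ℕ → (Fin d → ℤ) → ℝ} (h : Fam d (K + s) q x)
    (I : Fin s → Set ℝ) : Q285MD.Dat d s K q (gi x I) where
  q1 := h.q1
  cop := h.cop
  per k hk ν ν' hν := by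
    have hw := per_window h hk hν
    have e : (∀ i : Fin s, x (k + i) ν ∈ I i) ↔ ∀ i : Fin s, x (k + i) ν' ∈ I i :=
      forall_congr' fun i => by rw [hw i]
    unfold gi
    by_cases h1 : ∀ i : Fin s, x (k + i) ν ∈ I i
    · rw [if_pos h1, if_pos (e.1 h1)]
    · rw [if_neg h1, if_neg fun h2 => h1 (e.2 h2)]
  bd k _ ν := by
    rw [abs_of_nonneg (gi_nonneg x I k ν)]
    exact gi_le x I k ν

theorem s_lower : S_LOWER := by
  classical
  intro s c ε hc hε
  obtain ⟨K₀, C₀, A, hC₀, hG⟩ := Q285MD.gauss_md s c (ε / 4) hc (by positivity)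
  refine ⟨√c * (ε / 4), K₀, C₀, A, by positivity, hC₀, ?_⟩
  intro d K q x hK hF I hV Y hq hKY m L hL
  have hdat := dat hF I
  set S : (Fin d → ℤ) → ℝ := fun ν => ∑ k ∈ range K, Q285MD.G s q (gi x I) k ν with hS
  have hdev : ∀ ν, count x I K ν - cmean q x I K = S ν := fun ν => dev_eq q x I K ν
  set V : ℝ := Q285MD.vr d s K q (gi x I) (range K) with hVd
  have hV' : c * K ≤ V := by
    rw [hVd, Q285MD.vr]
    simp only [hdev, hS] at hV
    exact hV
  have hg := hG d K q (gi x I) hdat hK hV' Y hq hKY m L hL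
  have hη : √c * (ε / 4) * √K ≤ ε / 4 * √V := by
    have h1 : √c * √K ≤ √V := by
      rw [← Real.sqrt_mul hc.le]
      exact Real.sqrt_le_sqrt hV'
    calc √c * (ε / 4) * √K = ε / 4 * (√c * √K) := by ring
      _ ≤ ε / 4 * √V := mul_le_mul_of_nonneg_left h1 (by positivity)
  refine ⟨(Q282LT.zbox m L).filter fun ν => |S ν| < √c * (ε / 4) * √K, filter_subset _ _, ?_, ?_⟩
  · rcases (Q282LT.zbox m L).eq_empty_or_nonempty with he | ⟨ν₀, hν₀⟩
    · rw [he]
      simp only [filter_empty, card_empty, Nat.cast_zero]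
      positivity
    have hP : 0 < ∏ i, (L i : ℝ) := by
      refine prod_pos fun i _ => ?_
      have := Q282LT.mem_zbox.1 hν₀ i
      have h2 : (0 : ℤ) < L i := by linarith [this.1, this.2]
      exact_mod_cast h2
    set P : ℝ := ∏ i, (L i : ℝ) with hPd
    set y : ℝ := ε / 4 with hy
    have h1 := hg y
    have h2 := hg (-y)
    have hsub : ((Q282LT.zbox m L).filter fun ν => |S ν| < √c * y * √K) ∪
        ((Q282LT.zbox m L).filter fun ν => S ν ≤ -y * √V) ⊆
        (Q282LT.zbox m L).filter fun ν => S ν ≤ y * √V := by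
      intro ν hν
      rw [mem_union, mem_filter, mem_filter] at hν
      rw [mem_filter]
      rcases hν with ⟨h3, h4⟩ | ⟨h3, h4⟩
      · refine ⟨h3, ?_⟩
        have := (abs_lt.1 h4).2
        linarith
      · refine ⟨h3, ?_⟩
        have : 0 ≤ y * √V := by positivity
        linarith
    have hdis : Disjoint ((Q282LT.zbox m L).filter fun ν => |S ν| < √c * y * √K)
        ((Q282LT.zbox m L).filter fun ν => S ν ≤ -y * √V) := by
      rw [disjoint_left]
      intro ν h3 h4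
      rw [mem_filter] at h3 h4
      have := (abs_lt.1 h3.2).1
      have := h4.2
      linarith
    have hcard := card_le_card hsub
    rw [card_union_of_disjoint hdis] at hcard
    have hcard' : ((((Q282LT.zbox m L).filter fun ν => |S ν| < √c * y * √K).card : ℕ) : ℝ) +
        ((((Q282LT.zbox m L).filter fun ν => S ν ≤ -y * √V).card : ℕ) : ℝ) ≤
        ((((Q282LT.zbox m L).filter fun ν => S ν ≤ y * √V).card : ℕ) : ℝ) := by
      exact_mod_cast hcard
    have e1 := (abs_le.1 h1).2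
    have e2 := (abs_le.1 h2).1
    rw [sub_le_iff_le_add, div_le_iff₀ hP] at e1
    have e2' : Q282MM.Phi (-y) - ε / 4 ≤
        ((((Q282LT.zbox m L).filter fun ν => S ν ≤ -y * √V).card : ℕ) : ℝ) / P := by
      linarith
    rw [le_div_iff₀ hP] at e2'
    have e3 := (abs_le.1 (Q285MD.Phi_lip' y (-y))).2
    have e4 : |y - -y| = 2 * y := by
      rw [abs_of_nonneg] <;> linarith
    rw [e4] at e3
    have e5 : (Q282MM.Phi y + 0) * P ≤ (Q282MM.Phi (-y) + 2 * y) * P :=
      mul_le_mul_of_nonneg_right (by linarith) hP.le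
    have e6 : ((((Q282LT.zbox m L).filter fun ν => S ν ≤ y * √V).card : ℕ) : ℝ) ≤
        (ε / 4 + Q282MM.Phi y) * P := e1
    nlinarith
  · intro ν hν hνT
    rw [hdev]
    by_contra hcon
    push Not at hcon
    exact hνT (mem_filter.2 ⟨hν, hcon⟩)

end Pool.Agent.Q277.EB
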