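import Pool.Agent.Q277.EB.Boxes

/-!
# All scales at once
-/

set_option autoImplicit false

namespace Pool.Agent.Q277.EB

open Finset Pool.Agent.Q255.EB

theorem sum_inv_sq (n : ℕ) : ∑ j ∈ range n, 1 / ((j : ℝ) + 1) ^ 2 ≤ 2 := by
  have h : ∀ n : ℕ, ∑ j ∈ range (n + 1), 1 / ((j : ℝ) + 1) ^ 2 ≤ 2 - 1 / ((n : ℝ) + 1) := by
    intro n
    induction n with
    | zero => norm_num
    | succ n ih =>
      rw [sum_range_succ]
      have h1 : 1 / (((n + 1 : ℕ) : ℝ) + 1) ^ 2 ≤ 1 / ((n : ℝ) + 1) - 1 / (((n + 1 : ℕ) : ℝ) + 1) := by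
        have h0 : (0 : ℝ) ≤ n := Nat.cast_nonneg n
        push_cast
        rw [div_sub_div _ _ (by positivity) (by positivity), div_le_div_iff₀ (by positivity)
          (by positivity)]
        nlinarith
      linarith
  cases n with
  | zero => simp
  | succ n =>
    refine (h n).trans ?_
    have : (0 : ℝ) ≤ 1 / ((n : ℝ) + 1) := by positivity
    linarith

theorem fam_mono {d n n' : ℕ} {q : ℕ → ℕ} {x : ℕ → (Fin d → ℤ) → ℝ} (h : Fam d n q x)
    (hn : n' ≤ n) : Fam d n' q x where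
  q1 k hk := h.q1 k (by omega)
  cop i hi j hj := h.cop i (by omega) j (by omega)
  per k hk := h.per k (by omega)

/-- the scale of a number -/
theorem clog_bound {K' : ℕ} (h : 0 < K') :
    (K' ≤ 2 ^ Nat.clog 2 K') ∧ ((2 : ℝ) ^ Nat.clog 2 K' ≤ 2 * K') ∧
      (Nat.clog 2 K' : ℝ) + 1 ≤ 2 * (1 + Real.log K') := by
  have h0 : K' ≤ 2 ^ Nat.clog 2 K' := Nat.le_pow_clog (by norm_num) _
  have hK1 : (1 : ℝ) ≤ K' := by exact_mod_cast h
  have h1 : (2 : ℝ) ^ Nat.clog 2 K' ≤ 2 * K' := by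
    rcases Nat.lt_or_ge 1 K' with h2 | h2
    · have h3 := Nat.pow_pred_clog_lt_self (by norm_num : 1 < 2) h2
      have h4 : 0 < Nat.clog 2 K' := Nat.clog_pos (by norm_num) h2
      obtain ⟨j, hj⟩ := Nat.exists_eq_succ_of_ne_zero h4.ne'
      rw [hj] at h3 ⊢
      simp only [Nat.pred_succ, Nat.succ_eq_add_one] at h3 ⊢
      rw [pow_succ]
      have : ((2 ^ j : ℕ) : ℝ) < K' := by exact_mod_cast h3
      push_cast at this
      linarith
    · have h3 : K' = 1 := by omega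
      rw [h3]
      norm_num
  refine ⟨h0, h1, ?_⟩
  have h2 := Real.log_le_log (by positivity) h1
  rw [Real.log_pow, Real.log_mul (by norm_num) (by positivity)] at h2
  have h3 : (1 : ℝ) / 2 < Real.log 2 := by
    have := Real.log_two_gt_d9
    linarith
  have h4 : 0 ≤ Real.log K' := Real.log_nonneg hK1
  set c : ℝ := (Nat.clog 2 K' : ℝ) with hc
  by_contra h5
  push Not at h5
  have h6 : 1 + 2 * Real.log K' < c := by linarith
  have h7 : Real.log 2 * (1 + 2 * Real.log K') < Real.log 2 * c :=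
    mul_lt_mul_of_pos_left h6 (by linarith)
  nlinarith

theorem s_scales (hB : S_BOXES) : S_SCALES := by
  classical
  intro s r η hη
  obtain ⟨r₁, hr₁⟩ := exists_nat_ge (1 / η)
  obtain ⟨r', hr'1, hr'2, hr'3⟩ : ∃ r' : ℕ, r ≤ r' ∧ 4 * (s + 1) < r' ∧ 1 ≤ η * r' := by
    refine ⟨r + r₁ + (4 * (s + 1) + 1), by omega, by omega, ?_⟩
    rw [div_le_iff₀ hη] at hr₁
    push_cast
    have h1 : (0 : ℝ) ≤ r := Nat.cast_nonneg r
    have h2 : (0 : ℝ) ≤ s := Nat.cast_nonneg s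
    nlinarith [mul_nonneg hη.le h1, mul_nonneg hη.le h2]
  obtain ⟨C, C₀, A, hC, hC₀, h⟩ := hB s r' hr'2
  set b : ℝ := √2 * (2 : ℝ) ^ η with hb
  have hb1 : 1 ≤ b := by
    have h1 : (1 : ℝ) ≤ √2 := by rw [Real.one_le_sqrt]; norm_num
    have h2 : (1 : ℝ) ≤ (2 : ℝ) ^ η := Real.one_le_rpow (by norm_num) hη.le
    rw [hb]
    nlinarith
  have hb0 : 0 < b := by linarith
  refine ⟨2 * C * b ^ (2 * r') + b ^ (2 * r), C₀, A, by positivity, hC₀, ?_⟩
  intro d K q x hK hF Y hq hKY m L hL lam hlam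
  have hlam0 : 0 < lam := by linarith
  have hP0 : 0 ≤ ∏ i, (L i : ℝ) := prod_nonneg fun i _ => Nat.cast_nonneg _
  by_cases hl : lam < b
  · refine ⟨Q282LT.zbox m L, Subset.refl _, ?_, fun ν h1 h2 => absurd h1 h2⟩
    rw [Q282LT.card_zbox]
    push_cast
    have h1 : 1 ≤ (2 * C * b ^ (2 * r') + b ^ (2 * r)) / lam ^ (2 * r) := by
      rw [one_le_div (by positivity)]
      have h2 : lam ^ (2 * r) ≤ b ^ (2 * r) := pow_le_pow_left₀ hlam0.le hl.le _
      have h3 : 0 ≤ 2 * C * b ^ (2 * r') := by positivity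
      linarith
    calc (∏ i, (L i : ℝ)) = 1 * ∏ i, (L i : ℝ) := (one_mul _).symm
      _ ≤ _ := mul_le_mul_of_nonneg_right h1 hP0
  push Not at hl
  -- the scales
  have hj : ∀ j : ℕ, ∃ T : Finset (Fin d → ℤ), T ⊆ Q282LT.zbox m L ∧
      (T.card : ℝ) ≤ C / (lam / b * ((j : ℝ) + 1) ^ η) ^ (2 * r') * ∏ i, (L i : ℝ) ∧
      ∀ ν ∈ Q282LT.zbox m L, ν ∉ T → ∀ K' ≤ min (2 ^ j) K, ∀ I : Fin s → Set ℝ,
        (∀ i, (I i).OrdConnected) →
        |count x I K' ν - cmean q x I K'| ≤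
          lam / b * ((j : ℝ) + 1) ^ η * √((min (2 ^ j) K : ℕ) : ℝ) := by
    intro j
    have hm : min (2 ^ j) K ≤ K := min_le_right _ _
    refine h d (min (2 ^ j) K) q x (lt_min (by positivity) hK)
      (fam_mono hF (by omega)) Y (fun i hi => hq i (by omega)) (by omega) m L hL
      (lam / b * ((j : ℝ) + 1) ^ η) ?_
    have h1 : 1 ≤ lam / b := (one_le_div hb0).2 hl
    have h2 : (1 : ℝ) ≤ ((j : ℝ) + 1) ^ η := by
      refine Real.one_le_rpow ?_ hη.le
      have : (0 : ℝ) ≤ j := Nat.cast_nonneg j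
      linarith
    nlinarith
  choose T hTs hTc hTν using hj
  refine ⟨(range (Nat.clog 2 K + 1)).biUnion T, ?_, ?_, ?_⟩
  · intro ν hν
    rw [mem_biUnion] at hν
    obtain ⟨j, _, hν⟩ := hν
    exact hTs j hν
  · have h1 : ((((range (Nat.clog 2 K + 1)).biUnion T).card : ℕ) : ℝ) ≤
        ∑ j ∈ range (Nat.clog 2 K + 1), ((T j).card : ℝ) := by
      exact_mod_cast card_biUnion_le
    refine h1.trans ?_
    have h2 : ∀ j ∈ range (Nat.clog 2 K + 1), ((T j).card : ℝ) ≤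
        1 / ((j : ℝ) + 1) ^ 2 * (C * b ^ (2 * r') / lam ^ (2 * r) * ∏ i, (L i : ℝ)) := by
      intro j _
      refine (hTc j).trans ?_
      rw [← mul_assoc]
      refine mul_le_mul_of_nonneg_right ?_ hP0
      have hj1 : (1 : ℝ) ≤ (j : ℝ) + 1 := by
        have : (0 : ℝ) ≤ j := Nat.cast_nonneg j
        linarith
      have e1 : ((j : ℝ) + 1) ^ 2 ≤ (((j : ℝ) + 1) ^ η) ^ (2 * r') := by
        rw [← Real.rpow_natCast (((j : ℝ) + 1) ^ η), ← Real.rpow_mul (by linarith),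
          ← Real.rpow_natCast ((j : ℝ) + 1) 2]
        refine Real.rpow_le_rpow_of_exponent_le hj1 ?_
        push_cast
        nlinarith
      have e2 : lam ^ (2 * r) ≤ lam ^ (2 * r') := pow_le_pow_right₀ hlam (by omega)
      have e3 : (lam / b * ((j : ℝ) + 1) ^ η) ^ (2 * r') =
          lam ^ (2 * r') / b ^ (2 * r') * (((j : ℝ) + 1) ^ η) ^ (2 * r') := by
        rw [mul_pow, div_pow]
      rw [e3]
      have p1 : 0 < lam ^ (2 * r) := by positivity
      have p2 : 0 < lam ^ (2 * r') := by positivity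
      have p3 : 0 < b ^ (2 * r') := by positivity
      have p4 : 0 < ((j : ℝ) + 1) ^ 2 := by positivity
      have p5 : 0 < (((j : ℝ) + 1) ^ η) ^ (2 * r') := lt_of_lt_of_le p4 e1
      have e4 : 1 / ((j : ℝ) + 1) ^ 2 * (C * b ^ (2 * r') / lam ^ (2 * r)) =
          C / (lam ^ (2 * r) / b ^ (2 * r') * ((j : ℝ) + 1) ^ 2) := by
        field_simp
      rw [e4]
      refine div_le_div_of_nonneg_left hC.le (by positivity) ?_
      refine mul_le_mul ?_ e1 p4.le (by positivity)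
      exact div_le_div_of_nonneg_right e2 p3.le
    refine (sum_le_sum h2).trans ?_
    rw [← sum_mul]
    have h3 := sum_inv_sq (Nat.clog 2 K + 1)
    have h4 : 0 ≤ C * b ^ (2 * r') / lam ^ (2 * r) * ∏ i, (L i : ℝ) := by positivity
    have h5 : 0 ≤ b ^ (2 * r) / lam ^ (2 * r) * ∏ i, (L i : ℝ) := by positivity
    calc (∑ j ∈ range (Nat.clog 2 K + 1), 1 / ((j : ℝ) + 1) ^ 2) *
          (C * b ^ (2 * r') / lam ^ (2 * r) * ∏ i, (L i : ℝ))
        ≤ 2 * (C * b ^ (2 * r') / lam ^ (2 * r) * ∏ i, (L i : ℝ)) :=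
          mul_le_mul_of_nonneg_right h3 h4
      _ ≤ 2 * (C * b ^ (2 * r') / lam ^ (2 * r) * ∏ i, (L i : ℝ)) +
          b ^ (2 * r) / lam ^ (2 * r) * ∏ i, (L i : ℝ) := by linarith
      _ = (2 * C * b ^ (2 * r') + b ^ (2 * r)) / lam ^ (2 * r) * ∏ i, (L i : ℝ) := by ring
  · intro ν hν hνT K' hK'0 hK'K I hI
    obtain ⟨c1, c2, c3⟩ := clog_bound hK'0
    set j : ℕ := Nat.clog 2 K' with hjd
    have hjK : j ∈ range (Nat.clog 2 K + 1) := by
      rw [mem_range]
      have := Nat.clog_mono_right 2 hK'K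
      omega
    have h1 : ν ∉ T j := fun h2 => hνT (mem_biUnion.2 ⟨j, hjK, h2⟩)
    refine (hTν j ν hν h1 K' (le_min c1 hK'K) I hI).trans ?_
    have hK1 : (1 : ℝ) ≤ K' := by exact_mod_cast hK'0
    have hlog : 0 ≤ Real.log K' := Real.log_nonneg hK1
    have hj0 : (0 : ℝ) ≤ j := Nat.cast_nonneg j
    have h3 : √((min (2 ^ j) K : ℕ) : ℝ) ≤ √2 * √K' := by
      rw [← Real.sqrt_mul (by norm_num)]
      refine Real.sqrt_le_sqrt ?_
      have : ((min (2 ^ j) K : ℕ) : ℝ) ≤ ((2 ^ j : ℕ) : ℝ) := by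
        exact_mod_cast min_le_left _ _
      refine this.trans ?_
      push_cast
      exact c2
    have h4 : ((j : ℝ) + 1) ^ η ≤ 2 ^ η * (1 + Real.log K') ^ η := by
      rw [← Real.mul_rpow (by norm_num) (by linarith)]
      exact Real.rpow_le_rpow (by linarith) c3 hη.le
    have p0 : 0 ≤ ((j : ℝ) + 1) ^ η := by positivity
    have p1 : 0 ≤ lam / b := by positivity
    calc lam / b * ((j : ℝ) + 1) ^ η * √((min (2 ^ j) K : ℕ) : ℝ)
        ≤ lam / b * (2 ^ η * (1 + Real.log K') ^ η) * (√2 * √K') := by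
          refine mul_le_mul ?_ h3 (Real.sqrt_nonneg _) ?_
          · exact mul_le_mul_of_nonneg_left h4 p1
          · have : 0 ≤ (1 + Real.log K') ^ η := Real.rpow_nonneg (by linarith) _
            positivity
      _ = lam / b * b * √K' * (1 + Real.log K') ^ η := by rw [hb]; ring
      _ = lam * √K' * (1 + Real.log K') ^ η := by rw [div_mul_cancel₀ _ hb0.ne']

end Pool.Agent.Q277.EB
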